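import Pool.Agent.Lib.MP_fb520c_co.Sqrt

set_option autoImplicit false

open Pool.Agent.Lib.MP_fb520c_co

namespace Pool.Agent.Lib.MP_fb520c_co.Old.SqrtBound

/-- The best constant in the upper bound of Ismailescu (who proved it with `1.25`) is `1`. -/
theorem result : IsLeast {c : ℝ | ∀ C : Set Plane, IsConvexBody C → IsCentrallySymmetric C →
    latticeCoveringDensity C - 1 ≤ c * √(1 - packingDensity C)} 1 :=
  ⟨fun _ h1 h2 => by rw [one_mul]; exact sqrt_bound h1 h2, fun _ hc => sqrt_sharp hc⟩

end Pool.Agent.Lib.MP_fb520c_co.Old.SqrtBound
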